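import Pool.Agent.Helper61.QS.GoalsH

/-!
# Project QS (MP_0ebdb3_gt), packet LP: the loops `hN, hS, Ψ` satisfy the hypotheses of the core theorem
-/

set_option autoImplicit false

open Set ComplexConjugate

namespace Pool.Agent.Helper78.QS

open Pool.Agent.Helper61.QS

variable {n k : ℕ}

theorem eps_comp {ε : En n} {J : V k →L[ℝ] V n} (hJ : IsIso ε J) : ε.comp J = J := by
  rw [← hJ.right, ContinuousLinearMap.comp_assoc, hJ.left, ContinuousLinearMap.comp_id]

theorem inter {A ε ε' : En n} {J J' : V k →L[ℝ] V n} (hJ : IsIso ε J) (hJ' : IsIso ε' J')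
    (hA : A * ε = ε' * A) : A.comp J = J'.comp (compr J J' A) := by
  have h1 : J'.comp (compr J J' A) = (ε' * A).comp J := by
    rw [compr, ← ContinuousLinearMap.comp_assoc, hJ'.right]
    rfl
  rw [h1, ← hA]
  have h2 : (A * ε).comp J = A.comp (ε.comp J) := rfl
  rw [h2, eps_comp hJ]

theorem star_compr (A : En n) (J J' : V k →L[ℝ] V n) :
    star (compr J J' A) = compr J' J (star A) := by
  rw [ContinuousLinearMap.star_eq_adjoint, ContinuousLinearMap.star_eq_adjoint, compr, compr,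
    ContinuousLinearMap.adjoint_comp, ContinuousLinearMap.adjoint_comp,
    ContinuousLinearMap.adjoint_adjoint, ContinuousLinearMap.comp_assoc]

theorem compr_mul {A B ε ε' : En n} {J J' J'' : V k →L[ℝ] V n} (hJ : IsIso ε J)
    (hJ' : IsIso ε' J') (hA : A * ε = ε' * A) :
    compr J' J'' B * compr J J' A = compr J J'' (B * A) := by
  have h := inter hJ hJ' hA
  have h1 : compr J' J'' B * compr J J' A =
      (ContinuousLinearMap.adjoint J'').comp (B.comp (J'.comp (compr J J' A))) := rfl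
  rw [h1, ← h]
  rfl

theorem compr_one {ε : En n} {J : V k →L[ℝ] V n} (hJ : IsIso ε J) : compr J J 1 = 1 := by
  have h : compr J J (1 : En n) = (ContinuousLinearMap.adjoint J).comp J := rfl
  rw [h, hJ.left]
  rfl

theorem compr_unitary {A ε ε' : En n} {J J' : V k →L[ℝ] V n} (hJ : IsIso ε J)
    (hJ' : IsIso ε' J') (hA : A * ε = ε' * A) (hu : A ∈ unitary (En n)) :
    compr J J' A ∈ unitary (En k) := by
  have h1 : star A * A = 1 := (Unitary.mem_iff.1 hu).1
  have h2 : A * star A = 1 := (Unitary.mem_iff.1 hu).2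
  have hs : star A * ε' = ε * star A := by
    calc star A * ε' = star A * (ε' * A) * star A := by rw [mul_assoc, mul_assoc, h2, mul_one]
      _ = star A * (A * ε) * star A := by rw [hA]
      _ = ε * star A := by rw [← mul_assoc, h1, one_mul]
  rw [Unitary.mem_iff, star_compr]
  constructor
  · rw [compr_mul hJ hJ' hA, h1, compr_one hJ]
  · rw [compr_mul hJ' hJ hs, h2, compr_one hJ']

theorem continuous_compr (J J' : V k →L[ℝ] V n) : Continuous (compr J J' : En n → En k) := by
  unfold compr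
  fun_prop

theorem differentiable_compr (J J' : V k →L[ℝ] V n) :
    Differentiable ℝ (compr J J' : En n → En k) := by
  unfold compr
  fun_prop


section main

variable {m : ℤ} {ε R T : R4 → En n} {J : V k →L[ℝ] V n}

theorem e_ra (h : Hol m ε R T) (α : ℝ) : ε (0, 0, α, 0) = ε (0, 0, 0, 0) := (h.r0 0 α 0).1

theorem e_sa (h : Hol m ε R T) (α : ℝ) : ε (0, Real.pi, α, 0) = ε (0, Real.pi, 0, 0) :=
  (h.r0 Real.pi α 0).1

theorem e_ra1 (h : Hol m ε R T) (α : ℝ) :
    ε (Real.pi / 2, 0, α, 0) = ε (Real.pi / 2, 0, 0, 0) := by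
  rw [(h.r1 0 α 0).1, (h.t0 (Real.pi / 2) 0 (0 - m * α)).1]

theorem e_sa1 (h : Hol m ε R T) (α : ℝ) :
    ε (Real.pi / 2, Real.pi, α, 0) = ε (Real.pi / 2, Real.pi, 0, 0) := by
  rw [(h.r1 Real.pi α 0).1, (h.t1 (Real.pi / 2) 0 (0 - m * α)).1]

theorem star_inter {A ε ε' : En n} (hu : A ∈ unitary (En n)) (hA : ε' * A = A * ε) :
    star A * ε' = ε * star A := by
  have h1 : star A * A = 1 := (Unitary.mem_iff.1 hu).1
  have h2 : A * star A = 1 := (Unitary.mem_iff.1 hu).2
  calc star A * ε' = star A * (ε' * A) * star A := by rw [mul_assoc, mul_assoc, h2, mul_one]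
    _ = star A * (A * ε) * star A := by rw [hA]
    _ = ε * star A := by rw [← mul_assoc, h1, one_mul]

theorem interA (h : Hol m ε R T) (α : ℝ) :
    (star (R (Real.pi / 2, 0, 0, 0)) * R (Real.pi / 2, 0, α, 0)) * ε (0, 0, 0, 0) =
      ε (0, 0, 0, 0) * (star (R (Real.pi / 2, 0, 0, 0)) * R (Real.pi / 2, 0, α, 0)) := by
  have h1 := h.iR (Real.pi / 2) 0 α 0
  rw [e_ra h α, e_ra1 h α] at h1
  have h0 := star_inter (h.uR _) (h.iR (Real.pi / 2) 0 0 0)
  rw [mul_assoc, ← h1, ← mul_assoc, h0, mul_assoc]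

theorem interS (h : Hol m ε R T) (α : ℝ) :
    (star (R (Real.pi / 2, Real.pi, 0, 0)) * R (Real.pi / 2, Real.pi, α, 0)) *
        ε (0, Real.pi, 0, 0) =
      ε (0, Real.pi, 0, 0) *
        (star (R (Real.pi / 2, Real.pi, 0, 0)) * R (Real.pi / 2, Real.pi, α, 0)) := by
  have h1 := h.iR (Real.pi / 2) Real.pi α 0
  rw [e_sa h α, e_sa1 h α] at h1
  have h0 := star_inter (h.uR _) (h.iR (Real.pi / 2) Real.pi 0 0)
  rw [mul_assoc, ← h1, ← mul_assoc, h0, mul_assoc]

theorem interΨ (h : Hol m ε R T) (β : ℝ) :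
    T (0, Real.pi, 0, β) * ε (0, 0, 0, 0) = ε (0, Real.pi, 0, 0) * T (0, Real.pi, 0, β) := by
  have h1 := h.iT 0 Real.pi 0 β
  rw [(h.t1 0 0 β).1, (h.t0 0 0 β).1] at h1
  exact h1.symm

theorem isoS (h : Hol m ε R T) (hJ : IsIso (ε (0, 0, 0, 0)) J) :
    IsIso (ε (0, Real.pi, 0, 0)) ((T (0, Real.pi, 0, 0)).comp J) := by
  have h1 : star (T (0, Real.pi, 0, 0)) * T (0, Real.pi, 0, 0) = 1 :=
    (Unitary.mem_iff.1 (h.uT _)).1
  have h2 : T (0, Real.pi, 0, 0) * star (T (0, Real.pi, 0, 0)) = 1 :=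
    (Unitary.mem_iff.1 (h.uT _)).2
  constructor
  · rw [ContinuousLinearMap.adjoint_comp]
    have h3 : ((ContinuousLinearMap.adjoint J).comp
        (ContinuousLinearMap.adjoint (T (0, Real.pi, 0, 0)))).comp
          ((T (0, Real.pi, 0, 0)).comp J) =
        (ContinuousLinearMap.adjoint J).comp
          ((star (T (0, Real.pi, 0, 0)) * T (0, Real.pi, 0, 0)).comp J) := rfl
    rw [h3, h1]
    exact hJ.left
  · rw [ContinuousLinearMap.adjoint_comp]
    have h3 : ((T (0, Real.pi, 0, 0)).comp J).comp ((ContinuousLinearMap.adjoint J).comp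
        (ContinuousLinearMap.adjoint (T (0, Real.pi, 0, 0)))) =
        T (0, Real.pi, 0, 0) * (J.comp (ContinuousLinearMap.adjoint J)) *
          star (T (0, Real.pi, 0, 0)) := rfl
    rw [h3, hJ.right, ← h.iT 0 Real.pi 0 0, mul_assoc, h2, mul_one]

theorem factA (h : Hol m ε R T) (hJ : IsIso (ε (0, 0, 0, 0)) J) (α : ℝ) :
    (star (R (Real.pi / 2, 0, 0, 0)) * R (Real.pi / 2, 0, α, 0)).comp J =
      J.comp (lN J R α) := inter hJ hJ (interA h α)

theorem factS (h : Hol m ε R T) (hJ : IsIso (ε (0, 0, 0, 0)) J) (α : ℝ) :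
    (star (R (Real.pi / 2, Real.pi, 0, 0)) * R (Real.pi / 2, Real.pi, α, 0)).comp
        ((T (0, Real.pi, 0, 0)).comp J) =
      ((T (0, Real.pi, 0, 0)).comp J).comp (lS J R T α) :=
  inter (isoS h hJ) (isoS h hJ) (interS h α)

theorem factΨ (h : Hol m ε R T) (hJ : IsIso (ε (0, 0, 0, 0)) J) (β : ℝ) :
    (T (0, Real.pi, 0, β)).comp J = ((T (0, Real.pi, 0, 0)).comp J).comp (lΨ J T β) :=
  inter hJ (isoS h hJ) (interΨ h β)

theorem mul_star_mul {A B : En n} (hu : A ∈ unitary (En n)) : A * (star A * B) = B := by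
  rw [← mul_assoc, (Unitary.mem_iff.1 hu).2, one_mul]

/-- `A` and `B` which agree on the range of `ε` agree after composition with `J` -/
theorem comp_congr {A B ε : En n} {J : V k →L[ℝ] V n} (hJ : IsIso ε J) (h : A * ε = B * ε) :
    A.comp J = B.comp J := by
  have h1 : A.comp J = (A * ε).comp J := by
    have : (A * ε).comp J = A.comp (ε.comp J) := rfl
    rw [this, eps_comp hJ]
  have h2 : B.comp J = (B * ε).comp J := by
    have : (B * ε).comp J = B.comp (ε.comp J) := rfl
    rw [this, eps_comp hJ]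
  rw [h1, h2, h]

theorem rel (h : Hol m ε R T) (hJ : IsIso (ε (0, 0, 0, 0)) J) (α β : ℝ) :
    lΨ J T (β - m * α) * lN J R α = lS J R T α * lΨ J T β := by
  have hR0 : R (Real.pi / 2, 0, 0, β - m * α) = R (Real.pi / 2, 0, 0, 0) :=
    (h.t0 (Real.pi / 2) 0 (β - m * α)).2
  have hRπ : R (Real.pi / 2, Real.pi, 0, β - m * α) = R (Real.pi / 2, Real.pi, 0, 0) :=
    (h.t1 (Real.pi / 2) 0 (β - m * α)).2
  have hT1 : T (Real.pi / 2, Real.pi, α, β) = T (Real.pi / 2, Real.pi, 0, β - m * α) :=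
    (h.r1 Real.pi α β).2
  have hRα : R (Real.pi / 2, 0, α, β) = R (Real.pi / 2, 0, α, 0) := (h.t0 (Real.pi / 2) α β).2
  have hRπα : R (Real.pi / 2, Real.pi, α, β) = R (Real.pi / 2, Real.pi, α, 0) :=
    (h.t1 (Real.pi / 2) α β).2
  have hT0 : T (0, Real.pi, α, β) = T (0, Real.pi, 0, β) := (h.r0 Real.pi α β).2
  have c1 := comp_congr hJ (h.comm (Real.pi / 2) Real.pi 0 (β - m * α))
  have c2 := comp_congr hJ (h.comm (Real.pi / 2) Real.pi α β)
  rw [hR0, hRπ] at c1
  rw [hT1, hRα, hRπα, hT0] at c2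
  -- the injective map
  set K : V k →L[ℝ] V n := (R (Real.pi / 2, Real.pi, 0, 0)).comp ((T (0, Real.pi, 0, 0)).comp J)
    with hK
  have hKK : (ContinuousLinearMap.adjoint K).comp K = ContinuousLinearMap.id ℝ (V k) := by
    have h1 : star (R (Real.pi / 2, Real.pi, 0, 0)) * R (Real.pi / 2, Real.pi, 0, 0) = 1 :=
      (Unitary.mem_iff.1 (h.uR _)).1
    rw [hK, ContinuousLinearMap.adjoint_comp]
    have h3 : ∀ L : V k →L[ℝ] V n, ((ContinuousLinearMap.adjoint L).comp
        (ContinuousLinearMap.adjoint (R (Real.pi / 2, Real.pi, 0, 0)))).comp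
          ((R (Real.pi / 2, Real.pi, 0, 0)).comp L) =
        (ContinuousLinearMap.adjoint L).comp
          ((star (R (Real.pi / 2, Real.pi, 0, 0)) * R (Real.pi / 2, Real.pi, 0, 0)).comp L) :=
      fun L => rfl
    rw [h3, h1]
    exact (isoS h hJ).left
  have hl : K.comp (lΨ J T (β - m * α) * lN J R α) =
      (R (Real.pi / 2, Real.pi, α, 0)).comp ((T (0, Real.pi, 0, β)).comp J) := by
    calc K.comp (lΨ J T (β - m * α) * lN J R α)
        = ((R (Real.pi / 2, Real.pi, 0, 0)).comp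
            (((T (0, Real.pi, 0, 0)).comp J).comp (lΨ J T (β - m * α)))).comp (lN J R α) := rfl
      _ = ((R (Real.pi / 2, Real.pi, 0, 0)).comp
            ((T (0, Real.pi, 0, β - m * α)).comp J)).comp (lN J R α) := by
          rw [← factΨ h hJ]
      _ = ((R (Real.pi / 2, Real.pi, 0, 0) * T (0, Real.pi, 0, β - m * α)).comp J).comp
            (lN J R α) := rfl
      _ = ((T (Real.pi / 2, Real.pi, 0, β - m * α) * R (Real.pi / 2, 0, 0, 0)).comp J).comp
            (lN J R α) := by rw [c1]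
      _ = (T (Real.pi / 2, Real.pi, 0, β - m * α)).comp
            ((R (Real.pi / 2, 0, 0, 0)).comp (J.comp (lN J R α))) := rfl
      _ = (T (Real.pi / 2, Real.pi, 0, β - m * α)).comp
            ((R (Real.pi / 2, 0, 0, 0)).comp
              ((star (R (Real.pi / 2, 0, 0, 0)) * R (Real.pi / 2, 0, α, 0)).comp J)) := by
          rw [factA h hJ]
      _ = (T (Real.pi / 2, Real.pi, 0, β - m * α)).comp
            ((R (Real.pi / 2, 0, 0, 0) *
              (star (R (Real.pi / 2, 0, 0, 0)) * R (Real.pi / 2, 0, α, 0))).comp J) := rfl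
      _ = (T (Real.pi / 2, Real.pi, 0, β - m * α)).comp ((R (Real.pi / 2, 0, α, 0)).comp J) := by
          rw [mul_star_mul (h.uR _)]
      _ = (T (Real.pi / 2, Real.pi, 0, β - m * α) * R (Real.pi / 2, 0, α, 0)).comp J := rfl
      _ = (R (Real.pi / 2, Real.pi, α, 0) * T (0, Real.pi, 0, β)).comp J := by rw [c2]
      _ = _ := rfl
  have hr : K.comp (lS J R T α * lΨ J T β) =
      (R (Real.pi / 2, Real.pi, α, 0)).comp ((T (0, Real.pi, 0, β)).comp J) := by
    calc K.comp (lS J R T α * lΨ J T β)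
        = (R (Real.pi / 2, Real.pi, 0, 0)).comp
            ((((T (0, Real.pi, 0, 0)).comp J).comp (lS J R T α)).comp (lΨ J T β)) := rfl
      _ = (R (Real.pi / 2, Real.pi, 0, 0)).comp
            (((star (R (Real.pi / 2, Real.pi, 0, 0)) * R (Real.pi / 2, Real.pi, α, 0)).comp
              ((T (0, Real.pi, 0, 0)).comp J)).comp (lΨ J T β)) := by rw [factS h hJ]
      _ = (R (Real.pi / 2, Real.pi, 0, 0) *
            (star (R (Real.pi / 2, Real.pi, 0, 0)) * R (Real.pi / 2, Real.pi, α, 0))).comp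
              (((T (0, Real.pi, 0, 0)).comp J).comp (lΨ J T β)) := rfl
      _ = _ := by rw [mul_star_mul (h.uR _), ← factΨ h hJ]
  have hfin : ∀ A : En k, (ContinuousLinearMap.adjoint K).comp (K.comp A) = A := by
    intro A
    rw [← ContinuousLinearMap.comp_assoc, hKK, ContinuousLinearMap.id_comp]
  rw [← hfin (lΨ J T (β - m * α) * lN J R α), hl, ← hr, hfin]

end main

theorem goalLP : G_LP := by
  intro m n k ε R T J h hJ
  refine ⟨?_, factA h hJ, factΨ h hJ⟩
  refine
    { uN := fun α => compr_unitary hJ hJ (interA h α)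
        (Submonoid.mul_mem _ (Unitary.star_mem (h.uR _)) (h.uR _))
      uS := fun α => compr_unitary (isoS h hJ) (isoS h hJ) (interS h α)
        (Submonoid.mul_mem _ (Unitary.star_mem (h.uR _)) (h.uR _))
      uΨ := fun β => compr_unitary hJ (isoS h hJ) (interΨ h β) (h.uT _)
      cN := ?_
      cS := ?_
      cΨ := ?_
      pN := fun α => ?_
      pS := fun α => ?_
      pΨ := fun β => ?_
      N0 := ?_
      S0 := ?_
      Ψ0 := ?_
      dN := ?_
      dS := ?_
      rel := rel h hJ }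
  · have hR := h.cR
    refine (continuous_compr J J).comp ?_
    exact continuous_const.mul (hR.comp (by fun_prop))
  · have hR := h.cR
    refine (continuous_compr _ _).comp ?_
    exact continuous_const.mul (hR.comp (by fun_prop))
  · have hT := h.cT
    exact (continuous_compr _ _).comp (hT.comp (by fun_prop))
  · rw [lN, lN, (h.perα (Real.pi / 2) 0 α 0).2.1]
  · rw [lS, lS, (h.perα (Real.pi / 2) Real.pi α 0).2.1]
  · rw [lΨ, lΨ, (h.perβ 0 Real.pi 0 β).2.2]
  · rw [lN, (Unitary.mem_iff.1 (h.uR _)).1, compr_one hJ]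
  · rw [lS, (Unitary.mem_iff.1 (h.uR _)).1, compr_one (isoS h hJ)]
  · have h1 : compr J ((T (0, Real.pi, 0, 0)).comp J) (T (0, Real.pi, 0, 0)) =
        (ContinuousLinearMap.adjoint ((T (0, Real.pi, 0, 0)).comp J)).comp
          ((T (0, Real.pi, 0, 0)).comp J) := rfl
    rw [lΨ, h1, (isoS h hJ).left]
    rfl
  · exact (differentiable_compr J J _).comp 0 ((differentiableAt_const _).mul h.d0)
  · exact (differentiable_compr _ _ _).comp 0 ((differentiableAt_const _).mul h.d1)

end Pool.Agent.Helper78.QS
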